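import Pool.Agent.LE.StmtsQZ
import Pool.Agent.Helper76_LQF.RSJ

/-!
# Squad LQZ, row RSJ: the jet of the resolvent on the torus (copy of `Helper56_LQX/RSJ.lean`)
-/

set_option autoImplicit false

open MeasureTheory ProbabilityTheory Function Filter

open scoped ENNReal BigOperators Topology NNReal ComplexOrder Matrix

noncomputable section

namespace Pool.Agent.LE.QZ.H17

open Pool.Agent.Anderson hiding box mem_box card_box
open Pool.Agent.Loc Pool.Agent.Mob Pool.Agent.Helper54.Bal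
  Pool.Agent.Helper96.EXP Pool.Agent.BED
open Pool.Agent.LE.MN Pool.Agent.LE.CL Pool.Agent.LE.IR Pool.Agent.LE.QD Pool.Agent.LE.QF
open Pool.Agent.LE.QD.H76 (hz_unit rs_mul mul_rs rs_symm rs_conj res_en)
open Pool.Agent.LE.QF.H76 (gec gec2)

variable {d M : ℕ} [NeZero M]

omit [NeZero M] in
theorem zt_im (D : Dat d M) (t : ℝ) : (D.zt t).im = D.kp t := by
  unfold Dat.zt Dat.kp
  rw [Complex.add_im, Complex.mul_im, Complex.ofReal_re, Complex.ofReal_im, zero_mul, add_zero]

omit [NeZero M] in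
theorem zt_cd (D : Dat d M) (t : ℝ) : ContDiffAt ℝ 2 (fun s => -D.zt s) t := by
  unfold Dat.zt
  have h1 : ContDiffAt ℝ 2 (fun s : ℝ => ((D.T - s : ℝ) : ℂ)) t :=
    Complex.ofRealCLM.contDiff.contDiffAt.comp t (contDiffAt_const.sub contDiffAt_id)
  exact (contDiffAt_const.add (h1.mul contDiffAt_const)).neg

omit [NeZero M] in
theorem zt_dv (D : Dat d M) (t : ℝ) : deriv (fun s => -D.zt s) t = D.m := by
  unfold Dat.zt
  have h1 : HasDerivAt (fun s : ℝ => ((D.T - s : ℝ) : ℂ)) (((-1 : ℝ)) : ℂ) t :=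
    HasDerivAt.ofReal_comp ((hasDerivAt_id t).const_sub D.T)
  have h2 := ((h1.mul_const D.m).const_add (⟨D.E, D.η⟩ : ℂ)).neg
  have h3 : deriv (fun s : ℝ => -((⟨D.E, D.η⟩ : ℂ) + ((D.T - s : ℝ) : ℂ) * D.m)) t = _ := h2.deriv
  rw [h3]
  push_cast
  ring

omit [NeZero M] in
theorem kp_dv (D : Dat d M) (t : ℝ) : HasDerivAt D.kp (-D.m.im) t := by
  unfold Dat.kp
  have h := (((hasDerivAt_id t).const_sub D.T).mul_const D.m.im).const_add D.η
  have e : (-1 : ℝ) * D.m.im = -D.m.im := by ring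
  rw [e] at h
  exact h

omit [NeZero M] in
theorem kp_cd (D : Dat d M) (t : ℝ) : ContDiffAt ℝ 2 D.kp t := by
  unfold Dat.kp
  exact contDiffAt_const.add ((contDiffAt_const.sub contDiffAt_id).mul contDiffAt_const)

/-- the jet of `H - z` -/
theorem hzj (jal : JalStmt) (D : Dat d M) (q : ℝ × (Tor d M → ℝ)) :
    HM (fun r => hz r.2 (D.zt r.1)) q (hz q.2 (D.zt q.1))
      (fun c => Matrix.diagonal fun a => if c = a then 1 else 0)
      (Matrix.diagonal fun _ => D.m) := by
  obtain ⟨J1, J2, J3, -, -, -, J7, -⟩ := jal (Tor d M) ℂ q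
  intro a b
  have hc := J1 (((adj d M).map fun x : ℝ => (x : ℂ)) a b)
  by_cases h : a = b
  · subst h
    have h2 := J2 a
    have h3 := J7 (fun s => -D.zt s) (zt_cd D q.1)
    rw [zt_dv] at h3
    have h4 := (J3 _ _ _ _ _ _ _ _ hc (J3 _ _ _ _ _ _ _ _ h2 h3).1).1
    have e1 : (fun r : ℝ × (Tor d M → ℝ) => hz r.2 (D.zt r.1) a a) = fun r =>
        ((adj d M).map fun x : ℝ => (x : ℂ)) a a + (((r.2 a : ℝ) : ℂ) + -D.zt r.1) := by
      funext r
      unfold hz
      rw [Matrix.add_apply, Matrix.diagonal_apply_eq, sub_eq_add_neg]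
    have e2 : hz q.2 (D.zt q.1) a a =
        ((adj d M).map fun x : ℝ => (x : ℂ)) a a + (((q.2 a : ℝ) : ℂ) + -D.zt q.1) :=
      congrFun e1 q
    rw [e1, e2]
    simp only [Matrix.diagonal_apply_eq]
    have e3 : (fun c : Tor d M => (0 : ℂ) + ((if c = a then 1 else 0) + 0)) =
        fun c => if c = a then 1 else 0 := by
      funext c
      rw [zero_add, add_zero]
    have e4 : (0 : ℂ) + (0 + D.m) = D.m := by rw [zero_add, zero_add]
    rw [e4] at h4
    rw [← e3]
    exact h4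
  · have e1 : (fun r : ℝ × (Tor d M → ℝ) => hz r.2 (D.zt r.1) a b) = fun _ =>
        ((adj d M).map fun x : ℝ => (x : ℂ)) a b := by
      funext r
      unfold hz
      rw [Matrix.add_apply, Matrix.diagonal_apply_ne _ h, add_zero]
    have e2 : hz q.2 (D.zt q.1) a b = ((adj d M).map fun x : ℝ => (x : ℂ)) a b := congrFun e1 q
    rw [e1, e2]
    simp only [Matrix.diagonal_apply_ne _ h]
    exact hc

theorem rsj (jal : JalStmt) (jma : JmaStmt) : RsjStmt := by
  intro d M _ D c₁ C₁ c₀ q hc₁ hA hκ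
  have hm : 0 < D.m.im := hc₁.trans_le hA.hm.1
  have hz0 : (D.zt q.1).im ≠ 0 := by
    rw [zt_im]
    exact hκ.ne'
  have hz1 : ((starRingEnd ℂ) (D.zt q.1)).im ≠ 0 := by
    rw [Complex.conj_im]
    exact neg_ne_zero.2 hz0
  refine ⟨⟨?_, ?_, ?_, rfl, ?_⟩, ?_, ?_, ?_, ?_, ?_, ?_⟩
  · have h1 := ((jma (Tor d M) ℂ q).2 (Tor d M) _ _ _ _ (hzj jal D q)).1 (hz_unit q.2 hz0)
    have e1 : (fun c => -((hz q.2 (D.zt q.1))⁻¹ *
        (Matrix.diagonal fun a => if c = a then 1 else 0) * (hz q.2 (D.zt q.1))⁻¹)) =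
        gG (D.G q) := by
      funext c
      exact gec _ c
    have e2 := gec2 (D.G q) D.m
    rw [e1] at h1
    rw [← e2]
    exact h1
  · intro a b
    exact rs_symm _ _ a b
  · unfold Dat.ta
    exact (kp_cd D q.1).div_const _
  · unfold Dat.ta
    rw [((kp_dv D q.1).div_const D.m.im).deriv, neg_div, div_self hm.ne']
  · intro a b
    have h1 := congrFun (congrFun (res_en q.2 hz0 hz1) a) b
    rw [rs_conj, Matrix.sub_apply, Matrix.smul_apply, Matrix.mul_apply,
      Matrix.conjTranspose_apply] at h1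
    have h2 : ∑ c, rs q.2 (D.zt q.1) a c * (rs q.2 (D.zt q.1))ᴴ c b =
        ∑ c, D.G q a c * (starRingEnd ℂ) (D.G q b c) := rfl
    rw [h2, rs_symm q.2 _ b a] at h1
    have h3 : D.zt q.1 - (starRingEnd ℂ) (D.zt q.1) = 2 * Complex.I * (D.kp q.1 : ℂ) := by
      rw [Complex.sub_conj, zt_im]
      push_cast
      ring
    have h4 : rs q.2 (D.zt q.1) a b - star (rs q.2 (D.zt q.1) a b) =
        2 * Complex.I * ((D.G q a b).im : ℂ) := by
      have h5 := Complex.sub_conj (rs q.2 (D.zt q.1) a b)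
      rw [show star (rs q.2 (D.zt q.1) a b) = (starRingEnd ℂ) (rs q.2 (D.zt q.1) a b) from rfl, h5]
      unfold Dat.G
      push_cast
      ring
    rw [h3, h4, smul_eq_mul, mul_assoc, mul_assoc, mul_assoc] at h1
    have h6 := mul_left_cancel₀ (two_ne_zero' ℂ) h1
    exact (mul_left_cancel₀ Complex.I_ne_zero h6).symm
  · intro a b
    exact rs_symm _ _ a b
  · unfold Dat.ta
    rw [div_mul_cancel₀ _ hm.ne']
  · intro h0 hT
    unfold Dat.w Dat.kp
    constructor
    · nlinarith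
    · nlinarith
  · unfold Dat.Ls
    have h := kp_cd D q.1
    exact contDiffAt_const.mul ((contDiffAt_const.add
      (contDiffAt_const.div h hκ.ne')).add (contDiffAt_const.div h hκ.ne'))
  · have h := kp_dv D q.1
    have h2 := ((hasDerivAt_const q.1 D.π₀).div h hκ.ne')
    have h3 := ((hasDerivAt_const q.1 (D.δ ^ 4)).div h hκ.ne')
    have h4 := ((h2.const_add D.N).add h3).const_mul D.L₀
    have h5 : deriv D.Ls q.1 = _ := h4.deriv
    rw [h5]
    obtain ⟨-, -, hL, -, hp⟩ := hA.hj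
    refine mul_nonneg (zero_le_one.trans hL) (add_nonneg ?_ ?_)
    · refine div_nonneg ?_ (by positivity)
      have : 0 ≤ D.π₀ * D.m.im := by positivity
      rw [zero_mul, zero_sub]
      nlinarith
    · refine div_nonneg ?_ (by positivity)
      have : 0 ≤ D.δ ^ 4 * D.m.im := by positivity
      rw [zero_mul, zero_sub]
      nlinarith

end Pool.Agent.LE.QZ.H17
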